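import Pool.Agent.Work.MP_85e029_nt.Thin

namespace Pool.Agent.Results.MP_85e029_nt.NoPowerThreshold

open Polynomial Pool.Agent.Work.MP_85e029_nt.Thin

/-- For every `k` there are a complex Pisot unit `γ`, a root of `Y ^ 3 - 2 N Y ^ 2 + (N ^ 2 + 1) Y - 1`,
and an integer `m` above `|γ| ^ k` and `|γ| ^ 2 - 1` such that for every radius `R` some closed
disc of radius `R` contains no number `∑ j ≤ n, a j * γ ^ j` with digits `a j ≤ m`. -/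
theorem result (k : ℕ) :
    ∃ (γ : ℂ) (N m : ℕ),
      γ ^ 3 - 2 * N * γ ^ 2 + (N ^ 2 + 1) * γ - 1 = 0 ∧
      γ.im ≠ 0 ∧ 1 < ‖γ‖ ∧ IsIntegral ℤ γ ∧ IsIntegral ℤ γ⁻¹ ∧
      (∀ z : ℂ, IsConjRoot ℚ γ z → z ≠ γ → z ≠ (starRingEnd ℂ) γ → ‖z‖ < 1) ∧
      1 ≤ m ∧ ‖γ‖ ^ 2 - 1 < (m : ℝ) ∧ ‖γ‖ ^ k ≤ (m : ℝ) ∧
      ∀ R : ℝ, 0 < R → ∃ c : ℂ, ∀ (n : ℕ) (a : ℕ → ℕ), (∀ j, a j ≤ m) →
        ∑ j ∈ Finset.range (n + 1), (a j : ℂ) * γ ^ j ∉ Metric.closedBall c R := by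
  obtain ⟨N, hN⟩ : ∃ N : ℕ, N = 2 * k + 7 := ⟨_, rfl⟩
  have hk : (0 : ℝ) ≤ k := Nat.cast_nonneg k
  have hN' : (N : ℝ) = 2 * k + 7 := by exact_mod_cast hN
  obtain ⟨γ, t, ht0, ht1, him, hy, hx, hfac⟩ := exists_gamma (N := N) (by linarith)
  rw [Complex.ofReal_natCast] at hfac
  have h2 := hx.trans (Complex.re_le_norm γ)
  have h3 : 3 ≤ ‖γ‖ := by linarith
  have h1 : 1 ≤ ‖γ‖ := by linarith
  have hroot : γ ^ 3 - 2 * N * γ ^ 2 + (N ^ 2 + 1) * γ - 1 = 0 := by rw [hfac]; ring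
  have hint : IsIntegral ℤ γ := by
    refine ⟨X ^ 3 - C (2 * N : ℤ) * X ^ 2 + C (N ^ 2 + 1 : ℤ) * X - C 1, by monicity!, ?_⟩
    simp only [eval₂_sub, eval₂_add, eval₂_mul, eval₂_pow, eval₂_X, eval₂_C]
    simpa using hroot
  have hinv : γ⁻¹ = γ ^ 2 - 2 * N * γ + (N ^ 2 + 1) := by
    apply inv_eq_of_mul_eq_one_right
    linear_combination hroot
  have m1 := Nat.le_ceil (‖γ‖ ^ (k + 2))
  have m2 := Nat.ceil_lt_add_one (show 0 ≤ ‖γ‖ ^ (k + 2) by positivity)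
  have m3 : 1 ≤ ‖γ‖ ^ (k + 2) := one_le_pow₀ h1
  refine ⟨γ, N, ⌈‖γ‖ ^ (k + 2)⌉₊, hroot, him, by linarith, hint, ?_, ?_,
    by exact_mod_cast m3.trans m1, ?_, (pow_le_pow_right₀ h1 (by omega)).trans m1, fun R _ => ?_⟩
  · rw [hinv]
    have h6 : IsIntegral ℤ (2 * N : ℂ) := by
      simpa using isIntegral_algebraMap (R := ℤ) (A := ℂ) (x := 2 * N)
    have h7 : IsIntegral ℤ (N : ℂ) := by
      simpa using isIntegral_algebraMap (R := ℤ) (A := ℂ) (x := N)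
    have h13 : IsIntegral ℤ (N ^ 2 + 1 : ℂ) := (h7.pow 2).add isIntegral_one
    exact ((hint.pow 2).sub (h6.mul hint)).add h13
  · intro z hz hz1 hz2
    have hdvd : minpoly ℚ γ ∣
        (X ^ 3 - C (2 * N : ℚ) * X ^ 2 + C (N ^ 2 + 1 : ℚ) * X - C 1 : ℚ[X]) := by
      apply minpoly.dvd
      simpa using hroot
    have hz0 := aeval_eq_zero_of_dvd_aeval_eq_zero hdvd hz.aeval_eq_zero
    have hz0' : z ^ 3 - 2 * N * z ^ 2 + (N ^ 2 + 1) * z - 1 = 0 := by simpa using hz0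
    rw [hfac, mul_eq_zero, mul_eq_zero, sub_eq_zero, sub_eq_zero, sub_eq_zero] at hz0'
    rcases hz0' with (h | h) | h
    · rw [h, Complex.norm_real, Real.norm_eq_abs, abs_of_pos ht0]
      exact ht1
    · exact absurd h hz1
    · exact absurd h hz2
  · linarith [pow_le_pow_right₀ h1 (show 2 ≤ k + 2 by omega)]
  · obtain ⟨c, hc⟩ := holes (L := k + 3) (m := ⌈‖γ‖ ^ (k + 2)⌉₊) h3 (by omega)
      (re_pow (by linarith) (by push_cast; nlinarith))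
      (by rw [show k + 3 = k + 2 + 1 by ring, pow_succ _ (k + 2)]; nlinarith) R
    exact ⟨c, fun n a ha => hc (n + 1) a ha⟩

end Pool.Agent.Results.MP_85e029_nt.NoPowerThreshold
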